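import Pool.Agent.Helper702.BP.Core

/-!
# Block triangular threshold systems: every block monotone or symmetrizable
-/

set_option autoImplicit false

namespace Pool.Agent.Helper702.BP

open Finset

/-- for all thresholds there is a stable choice -/
def Stable {m : ℕ} (D : Fin m → Fin m → ℝ) : Prop :=
  ∀ τ : Fin m → ℝ, ∃ e : Fin m → Bool, ∀ i,
    (e i = true → τ i ≤ infl D e i) ∧ (e i = false → infl D e i ≤ τ i)

theorem stable_mono {m : ℕ} (D : Fin m → Fin m → ℝ) (s : Fin m → Bool)
    (h1 : ∀ i j, i ≠ j → s i = s j → 0 ≤ D j i)
    (h2 : ∀ i j, i ≠ j → s i ≠ s j → D j i ≤ 0) : Stable D := by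
  intro τ
  obtain ⟨e, he⟩ := fixed_point D (fun _ => 0) s τ
    (fun i j _ h => absurd h (lt_irrefl _)) (fun i j hij _ h => h1 i j hij h)
    (fun i j hij _ h => h2 i j hij h)
  refine ⟨e, fun i => ⟨fun h => (he i).mp h, fun h => ?_⟩⟩
  by_contra hcon
  push Not at hcon
  have := (he i).mpr hcon.le
  rw [h] at this
  exact Bool.noConfusion this

/-- the numerical value of a choice -/
def num (b : Bool) : ℝ := if b = true then 1 else 0

theorem infl_num {m : ℕ} (D : Fin m → Fin m → ℝ) (e : Fin m → Bool) (i : Fin m) :
    infl D e i = ∑ j, if j = i then 0 else num (e j) * D j i := by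
  unfold infl num
  refine Finset.sum_congr rfl fun j _ => ?_
  by_cases hj : j = i <;> by_cases he : e j = true <;> simp [hj, he]

theorem stable_pot {m : ℕ} (D : Fin m → Fin m → ℝ) (g : Fin m → ℝ) (hg : ∀ i, 0 < g i)
    (hs : ∀ i j, i ≠ j → g i * D j i = g j * D i j) : Stable D := by
  classical
  intro τ
  -- the potential
  let M : Fin m → Fin m → ℝ := fun i j => if j = i then 0 else g i * D j i / 2
  have hM0 : ∀ i, M i i = 0 := fun i => by simp [M]
  have hMs : ∀ i j, M i j = M j i := by
    intro i j
    by_cases hij : i = j
    · rw [hij]
    · simp only [M, if_neg hij, if_neg (fun h => hij h.symm : ¬ j = i)]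
      rw [hs i j hij]
  let Φ : (Fin m → Bool) → ℝ := fun e =>
    ∑ i, num (e i) * (- g i * τ i) + ∑ i, ∑ j, num (e i) * num (e j) * M i j
  obtain ⟨e, -, hmax⟩ := Finset.exists_max_image (Finset.univ : Finset (Fin m → Bool)) Φ
    ⟨fun _ => true, Finset.mem_univ _⟩
  -- change of the potential when the choice at `i` is set to `b`
  have hdiff : ∀ (i : Fin m) (b : Bool),
      Φ (Function.update e i b) - Φ e = (num b - num (e i)) * (g i * (infl D e i - τ i)) := by
    intro i b
    have hupd : ∀ j, num (Function.update e i b j) =
        num (e j) + (if j = i then num b - num (e i) else 0) := by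
      intro j
      by_cases hj : j = i
      · subst hj; simp
      · simp [hj]
    have hI : ∑ j, num (e j) * M i j * 2 = g i * infl D e i := by
      rw [infl_num, Finset.mul_sum]
      refine Finset.sum_congr rfl fun j _ => ?_
      by_cases hj : j = i
      · simp [M, hj]
      · simp only [M, if_neg hj]
        ring
    have h1 : ∑ j, num (Function.update e i b j) * (- g j * τ j) =
        ∑ j, num (e j) * (- g j * τ j) + (num b - num (e i)) * (- g i * τ i) := by
      simp only [hupd, add_mul, Finset.sum_add_distrib, ite_mul, zero_mul,
        Finset.sum_ite_eq', Finset.mem_univ, if_true]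
    have h2 : ∑ k, ∑ j, num (Function.update e i b k) * num (Function.update e i b j) * M k j =
        ∑ k, ∑ j, num (e k) * num (e j) * M k j +
          (num b - num (e i)) * ∑ j, num (e j) * M i j * 2 := by
      set t := num b - num (e i) with ht
      have h3 : ∀ k, ∑ j, num (Function.update e i b k) * num (Function.update e i b j) * M k j =
          ∑ j, num (e k) * num (e j) * M k j + num (e k) * t * M k i +
          (if k = i then t * ∑ j, num (e j) * M k j else 0) := by
        intro k
        have h4 : ∀ j, num (Function.update e i b k) * num (Function.update e i b j) * M k j =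
            num (e k) * num (e j) * M k j + (if j = i then num (e k) * t * M k j else 0) +
            (if k = i then t * (num (e j) * M k j) else 0) +
            (if k = i then (if j = i then t * t * M k j else 0) else 0) := by
          intro j
          rw [hupd k, hupd j]
          by_cases hk : k = i <;> by_cases hj : j = i <;> simp [hk, hj] <;> ring
        simp only [h4, Finset.sum_add_distrib, Finset.sum_ite_eq', Finset.mem_univ, if_true]
        by_cases hk : k = i
        · subst hk
          simp [hM0, Finset.mul_sum]
        · simp [hk]
      simp only [h3, Finset.sum_add_distrib, Finset.sum_ite_eq', Finset.mem_univ, if_true]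
      have h5 : ∑ k, num (e k) * t * M k i = t * ∑ j, num (e j) * M i j := by
        rw [Finset.mul_sum]
        refine Finset.sum_congr rfl fun k _ => ?_
        rw [hMs k i]
        ring
      have h6 : ∑ j, num (e j) * M i j * 2 = 2 * ∑ j, num (e j) * M i j := by
        rw [Finset.mul_sum]
        refine Finset.sum_congr rfl fun k _ => ?_
        ring
      rw [h5, h6]
      ring
    simp only [Φ]
    rw [h1, h2, hI]
    ring
  refine ⟨e, fun i => ⟨fun h => ?_, fun h => ?_⟩⟩
  · have h1 := hmax (Function.update e i false) (Finset.mem_univ _)
    have h2 := hdiff i false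
    have h3 : num false - num (e i) = -1 := by rw [h]; simp [num]
    rw [h3] at h2
    have h4 : 0 ≤ g i * (infl D e i - τ i) := by linarith
    have h5 := nonneg_of_mul_nonneg_right h4 (hg i)
    linarith
  · have h1 := hmax (Function.update e i true) (Finset.mem_univ _)
    have h2 := hdiff i true
    have h3 : num true - num (e i) = 1 := by rw [h]; simp [num]
    rw [h3] at h2
    have h4 : 0 ≤ g i * (τ i - infl D e i) := by
      have : g i * (τ i - infl D e i) = -(1 * (g i * (infl D e i - τ i))) := by ring
      rw [this]
      linarith
    have h5 := nonneg_of_mul_nonneg_right h4 (hg i)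
    linarith

/-- the diagonal block of rank `k` -/
noncomputable def blk {m : ℕ} (D : Fin m → Fin m → ℝ) (r : Fin m → ℕ) (k : ℕ) :
    Fin m → Fin m → ℝ :=
  fun j i => if r j = k ∧ r i = k then D j i else 0

theorem stable_blocks {m : ℕ} (D : Fin m → Fin m → ℝ) (r : Fin m → ℕ)
    (h0 : ∀ i j, i ≠ j → r i < r j → D j i = 0)
    (hb : ∀ k, Stable (blk D r k)) : Stable D := by
  classical
  intro τ
  have key : ∀ k : ℕ, ∃ e : Fin m → Bool, ∀ i, r i < k →
      (e i = true → τ i ≤ infl D e i) ∧ (e i = false → infl D e i ≤ τ i) := by
    intro k
    induction k with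
    | zero => exact ⟨fun _ => true, fun i hi => absurd hi (Nat.not_lt_zero _)⟩
    | succ k ih =>
      obtain ⟨e0, he0⟩ := ih
      obtain ⟨e1, he1⟩ := hb k
        (fun i => τ i - ∑ j, if r j ≠ k ∧ e0 j = true then D j i else 0)
      let e : Fin m → Bool := fun i => if r i = k then e1 i else e0 i
      refine ⟨e, fun i hi => ?_⟩
      rcases Nat.lt_succ_iff_lt_or_eq.mp hi with hlt | heq
      · have hE : e i = e0 i := by simp [e, hlt.ne]
        have hI : infl D e i = infl D e0 i := by
          refine Finset.sum_congr rfl fun j _ => ?_
          by_cases hji : j = i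
          · simp [hji]
          · by_cases hj : r j = k
            · have hD := h0 i j (fun h => hji h.symm) (by rw [hj]; exact hlt)
              simp [hD]
            · simp [e, hj]
        rw [hE, hI]
        exact he0 i hlt
      · have hE : e i = e1 i := by simp [e, heq]
        have hI : infl D e i = infl (blk D r k) e1 i +
            ∑ j, if r j ≠ k ∧ e0 j = true then D j i else 0 := by
          unfold infl
          rw [← Finset.sum_add_distrib]
          refine Finset.sum_congr rfl fun j _ => ?_
          by_cases hj : r j = k
          · simp [e, hj, blk, heq]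
          · have hji : j ≠ i := by
              intro h
              rw [h] at hj
              exact hj heq
            simp [e, hj, blk, hji]
        rw [hE, hI]
        obtain ⟨ha, hb'⟩ := he1 i
        exact ⟨fun h => by linarith [ha h], fun h => by linarith [hb' h]⟩
  obtain ⟨e, he⟩ := key (Finset.univ.sup r + 1)
  exact ⟨e, fun i => he i (Nat.lt_succ_of_le (Finset.le_sup (Finset.mem_univ i)))⟩

end Pool.Agent.Helper702.BP
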