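import Pool.Agent.Helper702.BP.Blocks

/-!
# Block coherent families of directions
-/

set_option autoImplicit false

namespace Pool.Agent.Helper702.BP

/-- The directions `a i` are block coherent with respect to `C`: there are points `p i`, `q i` of
`C` at which `x ↦ ⟨a i, x⟩` is maximal and minimal on `C`, ranks `r i` (which split the indices into
blocks), signs `s i` and numbers `c i > 0` such that for all `i ≠ j`:
* if `r i < r j`, then `⟨a i, p j - q j⟩ = 0`;
* in a block with `T`, `⟨a i, p j - q j⟩` is `≥ 0` for equal signs and `≤ 0` for different signs;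
* in a block without `T`, `c i * ⟨a i, p j - q j⟩ = c j * ⟨a j, p i - q i⟩`.
Nothing is asked if `r i > r j`. -/
def BlockCoherent {d m : ℕ} (C : Set (EuclideanSpace ℝ (Fin d)))
    (a : Fin m → EuclideanSpace ℝ (Fin d)) : Prop :=
  ∃ p q : Fin m → EuclideanSpace ℝ (Fin d), ExtremePoints C a p q ∧
    ∃ (r : Fin m → ℕ) (T : ℕ → Prop) (s : Fin m → Bool) (c : Fin m → ℝ), (∀ i, 0 < c i) ∧
      ∀ i j, i ≠ j →
        (r i < r j → inner ℝ (a i) (p j - q j) = 0) ∧
        (r i = r j → T (r i) → s i = s j → 0 ≤ inner ℝ (a i) (p j - q j)) ∧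
        (r i = r j → T (r i) → s i ≠ s j → inner ℝ (a i) (p j - q j) ≤ 0) ∧
        (r i = r j → ¬ T (r i) →
          c i * inner ℝ (a i) (p j - q j) = c j * inner ℝ (a j) (p i - q i))

theorem blockCoherent_of_signCoherent {d m : ℕ} {C : Set (EuclideanSpace ℝ (Fin d))}
    {a : Fin m → EuclideanSpace ℝ (Fin d)} (h : SignCoherent C a) : BlockCoherent C a := by
  obtain ⟨p, q, hpq, r, s, hrs⟩ := h
  exact ⟨p, q, hpq, r, fun _ => True, s, fun _ => 1, fun _ => one_pos, fun i j hij =>
    ⟨(hrs i j hij).1, fun h _ => (hrs i j hij).2.1 h, fun h _ => (hrs i j hij).2.2 h,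
      fun _ h => absurd trivial h⟩⟩

/-- points of `K` whose differences have the stability property for all positive weights -/
theorem blockCoherent_stable {d m : ℕ} {C : Set (EuclideanSpace ℝ (Fin d))}
    {a : Fin m → EuclideanSpace ℝ (Fin d)} (h : BlockCoherent C a) :
    ∃ p q : Fin m → EuclideanSpace ℝ (Fin d), ExtremePoints C a p q ∧
      ∀ μ : Fin m → ℝ, (∀ i, 0 < μ i) →
        Stable (fun j i => μ j * inner ℝ (a i) (p j - q j)) := by
  classical
  obtain ⟨p, q, hpq, r, T, s, c, hc, hrs⟩ := h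
  refine ⟨p, q, hpq, fun μ hμ => ?_⟩
  refine stable_blocks _ r ?_ ?_
  · intro i j hij h
    rw [(hrs i j hij).1 h, mul_zero]
  · intro k
    by_cases hT : T k
    · refine stable_mono _ s ?_ ?_
      · intro i j hij hs
        unfold blk
        split_ifs with hk
        · exact mul_nonneg (hμ j).le
            ((hrs i j hij).2.1 (hk.2.trans hk.1.symm) (by rw [hk.2]; exact hT) hs)
        · exact le_refl _
      · intro i j hij hs
        unfold blk
        split_ifs with hk
        · exact mul_nonpos_of_nonneg_of_nonpos (hμ j).le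
            ((hrs i j hij).2.2.1 (hk.2.trans hk.1.symm) (by rw [hk.2]; exact hT) hs)
        · exact le_refl _
    · refine stable_pot _ (fun i => c i * μ i) (fun i => mul_pos (hc i) (hμ i)) ?_
      intro i j hij
      unfold blk
      by_cases hk : r j = k ∧ r i = k
      · have hk' : r i = k ∧ r j = k := ⟨hk.2, hk.1⟩
        rw [if_pos hk, if_pos hk']
        have h1 := (hrs i j hij).2.2.2 (hk.2.trans hk.1.symm) (by rw [hk.2]; exact hT)
        have h2 : c i * μ i * (μ j * inner ℝ (a i) (p j - q j)) =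
            μ i * μ j * (c i * inner ℝ (a i) (p j - q j)) := by ring
        rw [h2, h1]
        ring
      · have hk' : ¬ (r i = k ∧ r j = k) := fun h => hk ⟨h.2, h.1⟩
        rw [if_neg hk, if_neg hk', mul_zero, mul_zero]

/-- the core for planks: chords `q j`, `p j` of `K` -/
theorem planks_stable {d m : ℕ} {K : Set (EuclideanSpace ℝ (Fin d))}
    (hconv : Convex ℝ K) (hne : K.Nonempty)
    {a p q : Fin m → EuclideanSpace ℝ (Fin d)} (hp : ∀ i, p i ∈ K) (hq : ∀ i, q i ∈ K)
    (hW : ∀ i, 0 < inner ℝ (a i) (p i) - inner ℝ (a i) (q i))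
    (hst : ∀ μ : Fin m → ℝ, (∀ i, 0 < μ i) →
      Stable (fun j i => μ j * inner ℝ (a i) (p j - q j)))
    (α β : Fin m → ℝ) (hαβ : ∀ i, α i ≤ β i)
    (hcov : ∀ x ∈ K, ∃ i, α i ≤ inner ℝ (a i) x ∧ inner ℝ (a i) x ≤ β i) :
    1 ≤ ∑ i, (β i - α i) / (inner ℝ (a i) (p i) - inner ℝ (a i) (q i)) := by
  classical
  obtain ⟨z, hzC⟩ := hne
  by_contra hlt
  push Not at hlt
  set S : ℝ := ∑ i, (β i - α i) / (inner ℝ (a i) (p i) - inner ℝ (a i) (q i)) with hS
  have hm : 0 < m := by
    rcases Nat.eq_zero_or_pos m with h0 | h0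
    · subst h0
      obtain ⟨i, _⟩ := hcov z hzC
      exact i.elim0
    · exact h0
  have hm' : (0 : ℝ) < m := by exact_mod_cast hm
  set δ : ℝ := (1 - S) / m with hδ
  have hδ0 : 0 < δ := by
    apply div_pos _ hm'
    linarith
  let μ : Fin m → ℝ := fun i =>
    (β i - α i) / (inner ℝ (a i) (p i) - inner ℝ (a i) (q i)) + δ
  have hμ0 : ∀ i, 0 < μ i := by
    intro i
    have : 0 ≤ (β i - α i) / (inner ℝ (a i) (p i) - inner ℝ (a i) (q i)) :=
      div_nonneg (by linarith [hαβ i]) (hW i).le
    simp only [μ]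
    linarith
  have hμ1 : ∑ i, μ i = 1 := by
    simp only [μ]
    rw [Finset.sum_add_distrib, ← hS, Finset.sum_const, Finset.card_univ, Fintype.card_fin,
      nsmul_eq_mul, hδ]
    field_simp
    ring
  obtain ⟨e, he⟩ := hst μ hμ0 (fun i => α i - (∑ j, μ j * inner ℝ (a i) (q j)) -
    δ * (inner ℝ (a i) (p i) - inner ℝ (a i) (q i)) / 2)
  have hx : (∑ j, μ j • (if e j = true then p j else q j)) ∈ K := by
    refine hconv.sum_mem (fun i _ => (hμ0 i).le) hμ1 ?_
    intro j _
    split_ifs
    · exact hp j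
    · exact hq j
  obtain ⟨i, hi1, hi2⟩ := hcov _ hx
  have hcomb := inner_comb a p q μ e i
  rw [hcomb] at hi1 hi2
  have h5 : 0 < δ * (inner ℝ (a i) (p i) - inner ℝ (a i) (q i)) := mul_pos hδ0 (hW i)
  cases hei : e i with
  | true =>
    have hle := (he i).1 hei
    simp only [hei, if_true, inner_sub_right] at hi1 hi2
    simp only [inner_sub_right] at hle
    have h4 : μ i * (inner ℝ (a i) (p i) - inner ℝ (a i) (q i)) =
        (β i - α i) + δ * (inner ℝ (a i) (p i) - inner ℝ (a i) (q i)) := by
      simp only [μ]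
      rw [add_mul, div_mul_cancel₀ _ (hW i).ne']
    linarith
  | false =>
    have hle := (he i).2 hei
    simp only [hei, Bool.false_eq_true, if_false] at hi1 hi2
    linarith

/-- the core for cuts -/
theorem cuts_stable {d m : ℕ} {C : Set (EuclideanSpace ℝ (Fin d))}
    (hconv : Convex ℝ C) {a : Fin m → EuclideanSpace ℝ (Fin d)} (h : BlockCoherent C a)
    (b : Fin m → ℝ) :
    ∃ σ : Fin m → Bool, ∃ t : EuclideanSpace ℝ (Fin d),
      ∀ x ∈ C,
        t + (1 / ((m : ℝ) + 1)) • x ∈ C ∧
        ∀ i : Fin m,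
          (σ i = true → inner ℝ (a i) (t + (1 / ((m : ℝ) + 1)) • x) ≤ b i) ∧
          (σ i = false → b i ≤ inner ℝ (a i) (t + (1 / ((m : ℝ) + 1)) • x)) := by
  classical
  obtain ⟨p, q, hpq, hfix⟩ := blockCoherent_stable h
  have hn : (0 : ℝ) < (m : ℝ) + 1 := by positivity
  set c : ℝ := 1 / ((m : ℝ) + 1) with hc
  have hc0' : 0 < c := by positivity
  have hc0 : 0 ≤ c := hc0'.le
  obtain ⟨e, he⟩ := hfix (fun _ => c) (fun _ => hc0')
    (fun i => b i - (∑ j, c * inner ℝ (a i) (q j)) - c * inner ℝ (a i) (p i))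
  refine ⟨fun i => !(e i), ∑ j, c • (if e j = true then p j else q j), fun x hx => ⟨?_, ?_⟩⟩
  · have hsum : (∑ j, c • (if e j = true then p j else q j)) + c • x =
        ∑ k : Fin (m + 1), c • (Fin.cons x (fun j => if e j = true then p j else q j) :
          Fin (m + 1) → EuclideanSpace ℝ (Fin d)) k := by
      rw [Fin.sum_univ_succ]
      simp [add_comm]
    rw [hsum]
    refine hconv.sum_mem (fun _ _ => hc0) ?_ ?_
    · rw [Finset.sum_const, Finset.card_univ, Fintype.card_fin, nsmul_eq_mul, hc]
      push_cast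
      field_simp
    · intro k _
      refine Fin.cases ?_ (fun j => ?_) k
      · simpa using hx
      · simp only [Fin.cons_succ]
        split_ifs
        · exact (hpq j).1
        · exact (hpq j).2.1
  · intro i
    have hcomb := inner_comb a p q (fun _ => c) e i
    obtain ⟨_, _, hext⟩ := hpq i
    obtain ⟨hx1, hx2⟩ := hext x hx
    constructor
    · intro hσ
      have hei : e i = false := by simpa using hσ
      rw [inner_add_right, inner_smul_right, hcomb]
      have hle := (he i).2 hei
      have h3 : c * inner ℝ (a i) x ≤ c * inner ℝ (a i) (p i) := mul_le_mul_of_nonneg_left hx2 hc0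
      simp only [hei, Bool.false_eq_true, if_false]
      linarith
    · intro hσ
      have hei : e i = true := by simpa using hσ
      rw [inner_add_right, inner_smul_right, hcomb]
      have hle := (he i).1 hei
      have h3 : c * inner ℝ (a i) (q i) ≤ c * inner ℝ (a i) x := mul_le_mul_of_nonneg_left hx1 hc0
      simp only [hei, if_true, inner_sub_right]
      simp only [inner_sub_right] at hle
      linarith

end Pool.Agent.Helper702.BP
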