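import Mathlib

/-!
# Plank families with sign coherent directions
-/

set_option autoImplicit false

namespace Pool.Agent.Helper702.BP

open Finset

/-- the influence sum on `i` of the choices `e` of the other indices -/
noncomputable def infl {m : ℕ} (D : Fin m → Fin m → ℝ) (e : Fin m → Bool) (i : Fin m) : ℝ :=
  ∑ j, if j ≠ i ∧ e j = true then D j i else 0

/-- threshold dynamics without negative cycles have a fixed point -/
theorem fixed_point {m : ℕ} (D : Fin m → Fin m → ℝ) (r : Fin m → ℕ) (s : Fin m → Bool)
    (τ : Fin m → ℝ)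
    (h0 : ∀ i j, i ≠ j → r i < r j → D j i = 0)
    (h1 : ∀ i j, i ≠ j → r i = r j → s i = s j → 0 ≤ D j i)
    (h2 : ∀ i j, i ≠ j → r i = r j → s i ≠ s j → D j i ≤ 0) :
    ∃ e : Fin m → Bool, ∀ i, (e i = true ↔ τ i ≤ infl D e i) := by
  classical
  have key : ∀ k : ℕ, ∃ e : Fin m → Bool, ∀ i, r i < k → (e i = true ↔ τ i ≤ infl D e i) := by
    intro k
    induction k with
    | zero => exact ⟨fun _ => true, fun i hi => absurd hi (Nat.not_lt_zero _)⟩
    | succ k ih =>
      obtain ⟨e0, he0⟩ := ih
      let E : Set (Fin m) → Fin m → Bool := fun T i =>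
        if r i = k then (decide (i ∈ T) == s i) else e0 i
      have mono_s : ∀ (T T' : Set (Fin m)), T ⊆ T' → ∀ i, r i = k →
          (s i = true → infl D (E T) i ≤ infl D (E T') i) ∧
          (s i = false → infl D (E T') i ≤ infl D (E T) i) := by
        intro T T' hT i hi
        constructor
        · intro hs
          refine Finset.sum_le_sum fun j _ => ?_
          by_cases hji : j = i
          · simp [hji]
          · by_cases hj : r j = k
            · have hrij : r i = r j := by rw [hi, hj]
              have hij : i ≠ j := fun h => hji h.symm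
              cases hsj : s j with
              | true =>
                have hD := h1 i j hij hrij (by rw [hs, hsj])
                by_cases hjT : j ∈ T
                · have hjT' := hT hjT
                  simp [E, hj, hsj, hjT, hjT', hji]
                · by_cases hjT' : j ∈ T'
                  · simp [E, hj, hsj, hjT, hjT', hji, hD]
                  · simp [E, hj, hsj, hjT, hjT']
              | false =>
                have hD := h2 i j hij hrij (by rw [hs, hsj]; simp)
                by_cases hjT : j ∈ T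
                · have hjT' := hT hjT
                  simp [E, hj, hsj, hjT, hjT']
                · by_cases hjT' : j ∈ T'
                  · simp [E, hj, hsj, hjT, hjT', hji, hD]
                  · simp [E, hj, hsj, hjT, hjT', hji]
            · simp [E, hj]
        · intro hs
          refine Finset.sum_le_sum fun j _ => ?_
          by_cases hji : j = i
          · simp [hji]
          · by_cases hj : r j = k
            · have hrij : r i = r j := by rw [hi, hj]
              have hij : i ≠ j := fun h => hji h.symm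
              cases hsj : s j with
              | true =>
                have hD := h2 i j hij hrij (by rw [hs, hsj]; simp)
                by_cases hjT : j ∈ T
                · have hjT' := hT hjT
                  simp [E, hj, hsj, hjT, hjT', hji]
                · by_cases hjT' : j ∈ T'
                  · simp [E, hj, hsj, hjT, hjT', hji, hD]
                  · simp [E, hj, hsj, hjT, hjT']
              | false =>
                have hD := h1 i j hij hrij (by rw [hs, hsj])
                by_cases hjT : j ∈ T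
                · have hjT' := hT hjT
                  simp [E, hj, hsj, hjT, hjT']
                · by_cases hjT' : j ∈ T'
                  · simp [E, hj, hsj, hjT, hjT', hji, hD]
                  · simp [E, hj, hsj, hjT, hjT', hji]
            · simp [E, hj]
      let F : Set (Fin m) →o Set (Fin m) :=
        { toFun := fun T => {i | r i = k ∧ (decide (τ i ≤ infl D (E T) i) = s i)}
          monotone' := by
            intro T T' hT i hi
            obtain ⟨hi1, hi2⟩ := hi
            refine ⟨hi1, ?_⟩
            obtain ⟨ha, hb⟩ := mono_s T T' hT i hi1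
            cases hs : s i with
            | true =>
              rw [hs] at hi2
              have h3 := of_decide_eq_true hi2
              exact decide_eq_true (h3.trans (ha hs))
            | false =>
              rw [hs] at hi2
              have h3 := of_decide_eq_false hi2
              refine decide_eq_false fun h4 => h3 (h4.trans (hb hs)) }
      let T := OrderHom.lfp F
      have hT : F T = T := OrderHom.map_lfp F
      refine ⟨E T, fun i hi => ?_⟩
      rcases Nat.lt_succ_iff_lt_or_eq.mp hi with hlt | heq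
      · have hE : E T i = e0 i := by simp [E, hlt.ne]
        have hI : infl D (E T) i = infl D e0 i := by
          refine Finset.sum_congr rfl fun j _ => ?_
          by_cases hji : j = i
          · simp [hji]
          · by_cases hj : r j = k
            · have hD := h0 i j (fun h => hji h.symm) (by rw [hj]; exact hlt)
              simp [hD]
            · simp [E, hj]
        rw [hE, hI]
        exact he0 i hlt
      · have hmem : i ∈ T ↔ (decide (τ i ≤ infl D (E T) i) = s i) := by
          constructor
          · intro h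
            rw [← hT] at h
            exact h.2
          · intro h
            rw [← hT]
            exact ⟨heq, h⟩
        have hE : E T i = (decide (i ∈ T) == s i) := by simp [E, heq]
        rw [hE]
        by_cases hτ : τ i ≤ infl D (E T) i
        · cases hs : s i <;> simp [hmem, hτ, hs]
        · cases hs : s i <;> simp [hmem, hτ, hs]
  obtain ⟨e, he⟩ := key (Finset.univ.sup r + 1)
  exact ⟨e, fun i => he i (Nat.lt_succ_of_le (Finset.le_sup (Finset.mem_univ i)))⟩


/-- `p i` and `q i` are points of `C` at which `x ↦ ⟨a i, x⟩` is maximal and minimal on `C` -/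
def ExtremePoints {d m : ℕ} (C : Set (EuclideanSpace ℝ (Fin d)))
    (a p q : Fin m → EuclideanSpace ℝ (Fin d)) : Prop :=
  ∀ i, p i ∈ C ∧ q i ∈ C ∧
    ∀ x ∈ C, inner ℝ (a i) (q i) ≤ inner ℝ (a i) x ∧ inner ℝ (a i) x ≤ inner ℝ (a i) (p i)

/-- The directions `a i` are sign coherent with respect to `C`: for suitable extreme points, ranks
`r i` and signs `s i`, the numbers `⟨a i, p j - q j⟩` (`i ≠ j`) vanish if `r i < r j`, and if
`r i = r j` they are `≥ 0` for equal signs `s i = s j` and `≤ 0` for different signs. Nothing is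
asked if `r i > r j`. -/
def SignCoherent {d m : ℕ} (C : Set (EuclideanSpace ℝ (Fin d)))
    (a : Fin m → EuclideanSpace ℝ (Fin d)) : Prop :=
  ∃ p q : Fin m → EuclideanSpace ℝ (Fin d), ExtremePoints C a p q ∧
    ∃ (r : Fin m → ℕ) (s : Fin m → Bool), ∀ i j, i ≠ j →
      (r i < r j → inner ℝ (a i) (p j - q j) = 0) ∧
      (r i = r j → s i = s j → 0 ≤ inner ℝ (a i) (p j - q j)) ∧
      (r i = r j → s i ≠ s j → inner ℝ (a i) (p j - q j) ≤ 0)

/-- There is one point `o` of `C` which lies, for every `i`, on a supporting hyperplane of `C`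
orthogonal to `a i`. -/
def CommonPoint {d m : ℕ} (C : Set (EuclideanSpace ℝ (Fin d)))
    (a : Fin m → EuclideanSpace ℝ (Fin d)) : Prop :=
  ∃ o ∈ C, ∀ i, (∀ x ∈ C, inner ℝ (a i) o ≤ inner ℝ (a i) x) ∨
    (∀ x ∈ C, inner ℝ (a i) x ≤ inner ℝ (a i) o)

theorem inner_comb {d m : ℕ} (a p q : Fin m → EuclideanSpace ℝ (Fin d)) (μ : Fin m → ℝ)
    (e : Fin m → Bool) (i : Fin m) :
    inner ℝ (a i) (∑ j, μ j • (if e j = true then p j else q j)) =
      (∑ j, μ j * inner ℝ (a i) (q j)) +
        infl (fun j i => μ j * inner ℝ (a i) (p j - q j)) e i +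
        (if e i = true then μ i * inner ℝ (a i) (p i - q i) else 0) := by
  classical
  unfold infl
  have h1 : (if e i = true then μ i * inner ℝ (a i) (p i - q i) else 0) =
      ∑ j, if j = i then (if e j = true then μ j * inner ℝ (a i) (p j - q j) else 0) else 0 := by
    simp
  rw [h1, inner_sum, ← Finset.sum_add_distrib, ← Finset.sum_add_distrib]
  refine Finset.sum_congr rfl fun j _ => ?_
  rw [inner_smul_right]
  by_cases hj : j = i <;> by_cases he : e j = true <;>
    simp [hj, he, inner_sub_right] <;> (try subst hj) <;> (try simp [he]) <;> (try ring)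

/-- the core: chords `q j`, `p j` of `K`, with sign coherent differences -/
theorem planks_core {d m : ℕ} {K : Set (EuclideanSpace ℝ (Fin d))}
    (hconv : Convex ℝ K) (hne : K.Nonempty)
    {a p q : Fin m → EuclideanSpace ℝ (Fin d)} (hp : ∀ i, p i ∈ K) (hq : ∀ i, q i ∈ K)
    (hW : ∀ i, 0 < inner ℝ (a i) (p i) - inner ℝ (a i) (q i))
    (r : Fin m → ℕ) (s : Fin m → Bool)
    (hrs : ∀ i j, i ≠ j →
      (r i < r j → inner ℝ (a i) (p j - q j) = 0) ∧
      (r i = r j → s i = s j → 0 ≤ inner ℝ (a i) (p j - q j)) ∧
      (r i = r j → s i ≠ s j → inner ℝ (a i) (p j - q j) ≤ 0))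
    (α β : Fin m → ℝ) (hαβ : ∀ i, α i ≤ β i)
    (hcov : ∀ x ∈ K, ∃ i, α i ≤ inner ℝ (a i) x ∧ inner ℝ (a i) x ≤ β i) :
    1 ≤ ∑ i, (β i - α i) / (inner ℝ (a i) (p i) - inner ℝ (a i) (q i)) := by
  classical
  obtain ⟨z, hzC⟩ := hne
  by_contra hlt
  push Not at hlt
  set S : ℝ := ∑ i, (β i - α i) / (inner ℝ (a i) (p i) - inner ℝ (a i) (q i)) with hS
  have hm : 0 < m := by
    rcases Nat.eq_zero_or_pos m with h0 | h0
    · subst h0
      obtain ⟨i, _⟩ := hcov z hzC
      exact i.elim0
    · exact h0
  have hm' : (0 : ℝ) < m := by exact_mod_cast hm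
  set δ : ℝ := (1 - S) / m with hδ
  have hδ0 : 0 < δ := by
    apply div_pos _ hm'
    linarith
  let μ : Fin m → ℝ := fun i =>
    (β i - α i) / (inner ℝ (a i) (p i) - inner ℝ (a i) (q i)) + δ
  have hμ0 : ∀ i, 0 ≤ μ i := by
    intro i
    have : 0 ≤ (β i - α i) / (inner ℝ (a i) (p i) - inner ℝ (a i) (q i)) :=
      div_nonneg (by linarith [hαβ i]) (hW i).le
    simp only [μ]
    linarith
  have hμ1 : ∑ i, μ i = 1 := by
    simp only [μ]
    rw [Finset.sum_add_distrib, ← hS, Finset.sum_const, Finset.card_univ, Fintype.card_fin,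
      nsmul_eq_mul, hδ]
    field_simp
    ring
  obtain ⟨e, he⟩ := fixed_point (fun j i => μ j * inner ℝ (a i) (p j - q j)) r s
    (fun i => α i - (∑ j, μ j * inner ℝ (a i) (q j)))
    (fun i j hij h => by rw [(hrs i j hij).1 h, mul_zero])
    (fun i j hij h1 h2 => mul_nonneg (hμ0 j) ((hrs i j hij).2.1 h1 h2))
    (fun i j hij h1 h2 => mul_nonpos_of_nonneg_of_nonpos (hμ0 j) ((hrs i j hij).2.2 h1 h2))
  have hx : (∑ j, μ j • (if e j = true then p j else q j)) ∈ K := by
    refine hconv.sum_mem (fun i _ => hμ0 i) hμ1 ?_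
    intro j _
    split_ifs
    · exact hp j
    · exact hq j
  obtain ⟨i, hi1, hi2⟩ := hcov _ hx
  have hcomb := inner_comb a p q μ e i
  rw [hcomb] at hi1 hi2
  by_cases hei : e i = true
  · have hle := (he i).mp hei
    simp only [hei, if_true, inner_sub_right] at hi1 hi2
    simp only [inner_sub_right] at hle
    have h4 : μ i * (inner ℝ (a i) (p i) - inner ℝ (a i) (q i)) =
        (β i - α i) + δ * (inner ℝ (a i) (p i) - inner ℝ (a i) (q i)) := by
      simp only [μ]
      rw [add_mul, div_mul_cancel₀ _ (hW i).ne']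
    have h5 : 0 < δ * (inner ℝ (a i) (p i) - inner ℝ (a i) (q i)) := mul_pos hδ0 (hW i)
    linarith
  · have hlt' : ¬ (α i - (∑ j, μ j * inner ℝ (a i) (q j)) ≤
        infl (fun j i => μ j * inner ℝ (a i) (p j - q j)) e i) := fun h1 => hei ((he i).mpr h1)
    push Not at hlt'
    simp only [hei, Bool.false_eq_true, if_false] at hi1 hi2
    linarith

theorem width_pos {d : ℕ} {C : Set (EuclideanSpace ℝ (Fin d))} (hint : (interior C).Nonempty)
    {v p q : EuclideanSpace ℝ (Fin d)} (hv : v ≠ 0)
    (h : ∀ x ∈ C, inner ℝ v q ≤ inner ℝ v x ∧ inner ℝ v x ≤ inner ℝ v p) :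
    0 < inner ℝ v p - inner ℝ v q := by
  obtain ⟨z, hz⟩ := hint
  obtain ⟨ε, hε, hball⟩ := Metric.isOpen_iff.mp isOpen_interior z hz
  have hna : 0 < ‖v‖ := norm_pos_iff.mpr hv
  have hy : z - (ε / (2 * ‖v‖)) • v ∈ C := by
    apply interior_subset
    apply hball
    rw [Metric.mem_ball, dist_eq_norm, sub_sub_cancel_left, norm_neg, norm_smul,
      Real.norm_of_nonneg (by positivity)]
    have : ε / (2 * ‖v‖) * ‖v‖ = ε / 2 := by field_simp
    rw [this]
    linarith
  have h1 := (h _ hy).1
  have h2 := (h z (interior_subset hz)).2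
  rw [inner_sub_right, inner_smul_right, real_inner_self_eq_norm_sq] at h1
  have h3 : 0 < ε / (2 * ‖v‖) * ‖v‖ ^ 2 := by positivity
  linarith

theorem sSup_of_ext {d : ℕ} {C : Set (EuclideanSpace ℝ (Fin d))}
    {v p : EuclideanSpace ℝ (Fin d)} (hp : p ∈ C)
    (h : ∀ x ∈ C, inner ℝ v x ≤ inner ℝ v p) :
    sSup ((fun x => inner ℝ v x) '' C) = inner ℝ v p :=
  IsGreatest.csSup_eq ⟨⟨p, hp, rfl⟩, by rintro _ ⟨x, hx, rfl⟩; exact h x hx⟩

theorem sInf_of_ext {d : ℕ} {C : Set (EuclideanSpace ℝ (Fin d))}
    {v q : EuclideanSpace ℝ (Fin d)} (hq : q ∈ C)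
    (h : ∀ x ∈ C, inner ℝ v q ≤ inner ℝ v x) :
    sInf ((fun x => inner ℝ v x) '' C) = inner ℝ v q :=
  IsLeast.csInf_eq ⟨⟨q, hq, rfl⟩, by rintro _ ⟨x, hx, rfl⟩; exact h x hx⟩

theorem exists_ext {d : ℕ} {C : Set (EuclideanSpace ℝ (Fin d))} (hC : IsCompact C)
    (hne : C.Nonempty) (v : EuclideanSpace ℝ (Fin d)) :
    ∃ p ∈ C, ∃ q ∈ C, ∀ x ∈ C, inner ℝ v q ≤ inner ℝ v x ∧ inner ℝ v x ≤ inner ℝ v p := by
  have hcont : ContinuousOn (fun x => inner ℝ v x) C :=
    (continuous_const.inner continuous_id).continuousOn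
  obtain ⟨p, hp, hp'⟩ := hC.exists_isMaxOn hne hcont
  obtain ⟨q, hq, hq'⟩ := hC.exists_isMinOn hne hcont
  exact ⟨p, hp, q, hq, fun x hx => ⟨hq' hx, hp' hx⟩⟩

theorem signCoherent_of_commonPoint {d m : ℕ} {C : Set (EuclideanSpace ℝ (Fin d))}
    (hC : IsCompact C) {a : Fin m → EuclideanSpace ℝ (Fin d)} (h : CommonPoint C a) :
    SignCoherent C a := by
  classical
  obtain ⟨o, ho, hoa⟩ := h
  have hcont : ∀ i, ContinuousOn (fun x => inner ℝ (a i) x) C := fun i =>
    (continuous_const.inner continuous_id).continuousOn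
  have hmax : ∀ i, ∃ x ∈ C, ∀ y ∈ C, inner ℝ (a i) y ≤ inner ℝ (a i) x := by
    intro i
    obtain ⟨x, hx, hx'⟩ := hC.exists_isMaxOn ⟨o, ho⟩ (hcont i)
    exact ⟨x, hx, fun y hy => hx' hy⟩
  have hmin : ∀ i, ∃ x ∈ C, ∀ y ∈ C, inner ℝ (a i) x ≤ inner ℝ (a i) y := by
    intro i
    obtain ⟨x, hx, hx'⟩ := hC.exists_isMinOn ⟨o, ho⟩ (hcont i)
    exact ⟨x, hx, fun y hy => hx' hy⟩
  choose u hu hu' using hmax
  choose v hv hv' using hmin
  let s : Fin m → Bool := fun i => decide (∀ x ∈ C, inner ℝ (a i) o ≤ inner ℝ (a i) x)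
  have hs1 : ∀ i, s i = true → ∀ x ∈ C, inner ℝ (a i) o ≤ inner ℝ (a i) x := fun i hi =>
    of_decide_eq_true hi
  have hs2 : ∀ i, s i = false → ∀ x ∈ C, inner ℝ (a i) x ≤ inner ℝ (a i) o := fun i hi =>
    (hoa i).resolve_left (of_decide_eq_false hi)
  refine ⟨fun i => if s i = true then u i else o, fun i => if s i = true then o else v i,
    ?_, fun _ => 0, s, ?_⟩
  · intro i
    cases hsi : s i with
    | true =>
      simp only [hsi, if_true]
      exact ⟨hu i, ho, fun x hx => ⟨hs1 i hsi x hx, hu' i x hx⟩⟩
    | false =>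
      simp only [hsi, Bool.false_eq_true, if_false]
      exact ⟨ho, hv i, fun x hx => ⟨hv' i x hx, hs2 i hsi x hx⟩⟩
  · intro i j _
    refine ⟨fun h => absurd h (lt_irrefl _), fun _ hij => ?_, fun _ hij => ?_⟩
    · cases hsj : s j with
      | true =>
        rw [hsj] at hij
        simp only [hsj, if_true, inner_sub_right]
        linarith [hs1 i hij _ (hu j)]
      | false =>
        rw [hsj] at hij
        simp only [hsj, Bool.false_eq_true, if_false, inner_sub_right]
        linarith [hs2 i hij _ (hv j)]
    · cases hsj : s j with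
      | true =>
        rw [hsj] at hij
        have hij' : s i = false := by simpa using hij
        simp only [hsj, if_true, inner_sub_right]
        linarith [hs2 i hij' _ (hu j)]
      | false =>
        rw [hsj] at hij
        have hij' : s i = true := by simpa using hij
        simp only [hsj, Bool.false_eq_true, if_false, inner_sub_right]
        linarith [hs1 i hij' _ (hv j)]


end Pool.Agent.Helper702.BP
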